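import Pool.Agent.TH501.HHF.Surplus

set_option autoImplicit false

namespace Pool.Agent.Results.MP_cc5cd7_ag.EveryFieldHighMultiplicity

open MvPolynomial

/-- the homogeneous ideal of the point of projective `N`-space with homogeneous coordinates `q` -/
noncomputable def pointIdeal {K : Type*} [Field K] {N : ℕ} (q : Fin (N + 1) → K) :
    Ideal (MvPolynomial (Fin (N + 1)) K) :=
  Ideal.span (Set.range (fun jl : Fin (N + 1) × Fin (N + 1) =>
    (X jl.1 * C (q jl.2) - X jl.2 * C (q jl.1) : MvPolynomial (Fin (N + 1)) K)))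

/-- the ideal of the fat point scheme `∑ μ i • p i` in projective `N`-space -/
noncomputable def fatIdeal {K : Type*} [Field K] {N s : ℕ} (p : Fin s → Fin (N + 1) → K)
    (μ : Fin s → ℕ) : Ideal (MvPolynomial (Fin (N + 1)) K) :=
  ⨅ i : Fin s, pointIdeal (p i) ^ (μ i)

/-- the ideal generated by the variables -/
noncomputable def irrelevant (K : Type*) [Field K] (N : ℕ) :
    Ideal (MvPolynomial (Fin (N + 1)) K) :=
  Ideal.span (Set.range (fun j : Fin (N + 1) => (X j : MvPolynomial (Fin (N + 1)) K)))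

section

variable {K : Type*} [Field K] {N s : ℕ}

/-- dropping the points of multiplicity zero -/
theorem reduce (p : Fin s → Fin (N + 1) → K) (hp : ∀ i, p i ≠ 0) (a w : Fin s → ℕ) (r e : ℕ)
    (s' : ℕ) (f : Fin s' → Fin s) (hf : ∀ i, w i ≠ 0 → ∃ j, f j = i)
    (H : (⨅ j, Pool.Agent.H737R3.linI (p (f j)) ^ (a (f j))) ≤
      Pool.Agent.H737R3.Cont.irr K N ^ e *
        (⨅ j, Pool.Agent.H737R3.linI (p (f j)) ^ (w (f j))) ^ r) :
    fatIdeal p a ≤ irrelevant K N ^ e * fatIdeal p w ^ r := by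
  have hl : ∀ i, pointIdeal (p i) = Pool.Agent.H737R3.linI (p i) :=
    fun i => Pool.Agent.H737R3.span_eq_linI (hp i)
  unfold fatIdeal
  simp only [hl]
  intro F hF
  rw [Submodule.mem_iInf] at hF
  have h4 : F ∈ ⨅ j, Pool.Agent.H737R3.linI (p (f j)) ^ (a (f j)) := by
    rw [Submodule.mem_iInf]
    intro j
    exact hF (f j)
  have h5 := H h4
  refine Ideal.mul_mono_right (Ideal.pow_right_mono ?_ r) h5
  refine le_iInf fun i => ?_
  by_cases hi : w i = 0
  · rw [hi, pow_zero, Ideal.one_eq_top]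
    exact le_top
  · obtain ⟨j, rfl⟩ := hf i hi
    exact iInf_le _ j

/-- enumerating the points of nonzero multiplicity -/
theorem exists_enum (m : Fin s → ℕ) (hm : ∃ i, m i ≠ 0) :
    ∃ (s' : ℕ) (f : Fin s' → Fin s), 0 < s' ∧ (∀ j, m (f j) ≠ 0) ∧
      ∀ i, m i ≠ 0 → ∃ j, f j = i := by
  classical
  obtain ⟨i₀, hi₀⟩ := hm
  set S := {i : Fin s // m i ≠ 0} with hS
  let f : Fin (Fintype.card S) ≃ S := (Fintype.equivFin S).symm
  exact ⟨Fintype.card S, fun j => f j, Fintype.card_pos_iff.2 ⟨⟨i₀, hi₀⟩⟩, fun j => (f j).2,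
    fun i hi => ⟨f.symm ⟨i, hi⟩, by simp⟩⟩

end

/-- **The refined containment for fat point schemes over arbitrary fields.** Let
`Z = ∑ μ i • p i` be a fat point scheme in projective `N`-space, `N ≥ 2`, over an arbitrary field,
`Z ≠ 0`, and `r, m ≥ 1`.

1. If all nonzero multiplicities are at least `N`, then
   `I(r (m + N - 1) Z) ⊆ M^(r (N - 1)) I(m Z)^r`.
2. If all nonzero multiplicities are at least `N - 1`, then
   `I((m + N - 1) Z) ⊆ M^(N - 1) I(m Z)` (the case `r = 1`; for `N = 2` no condition).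
3. If all nonzero multiplicities are at least `ν ≥ 3` and
   `m ν (m ν + N - 2) ≤ r (N - 1) (m ν (ν - 2) - (N - 1))`, then
   `I(r (m + N - 1) Z) ⊆ M^(r (N - 1)) I(m Z)^r`.
4. Without any condition, `I(r (m + (e + 1) (N - 1)) Z) ⊆ M^(r e) I(m Z)^r` for all `e`. -/
theorem result (K : Type*) [Field K] (N : ℕ) (hN : 2 ≤ N) (s : ℕ)
    (p : Fin s → Fin (N + 1) → K) (hp : ∀ i, p i ≠ 0) (μ : Fin s → ℕ) (hμ : ∃ i, μ i ≠ 0)
    (r m : ℕ) (hr : 1 ≤ r) (hm : 1 ≤ m) :
    ((∀ i, μ i ≠ 0 → N ≤ μ i) →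
      fatIdeal p (fun i => r * (m + N - 1) * μ i) ≤
        irrelevant K N ^ (r * (N - 1)) * fatIdeal p (fun i => m * μ i) ^ r) ∧
    ((∀ i, μ i ≠ 0 → N - 1 ≤ μ i) →
      fatIdeal p (fun i => (m + N - 1) * μ i) ≤
        irrelevant K N ^ (N - 1) * fatIdeal p (fun i => m * μ i)) ∧
    (∀ ν : ℕ, 3 ≤ ν → (∀ i, μ i ≠ 0 → ν ≤ μ i) →
      m * ν * (m * ν + N - 2) + r * (N - 1) * (N - 1) ≤ r * (N - 1) * (m * ν * (ν - 2)) →
      fatIdeal p (fun i => r * (m + N - 1) * μ i) ≤
        irrelevant K N ^ (r * (N - 1)) * fatIdeal p (fun i => m * μ i) ^ r) ∧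
    (∀ e : ℕ, fatIdeal p (fun i => r * (m + (e + 1) * (N - 1)) * μ i) ≤
      irrelevant K N ^ (r * e) * fatIdeal p (fun i => m * μ i) ^ r) := by
  obtain ⟨s', f, hs', hf0, hf1⟩ := exists_enum μ hμ
  have hf : ∀ i, m * μ i ≠ 0 → ∃ j, f j = i := fun i hi => hf1 i (right_ne_zero_of_mul hi)
  have hP : ∀ j, p (f j) ≠ 0 := fun j => hp _
  obtain ⟨N', rfl⟩ : ∃ N', N = N' + 1 := ⟨N - 1, by omega⟩
  have e1 : m + (N' + 1) - 1 = m + N' := by omega
  have e2 : N' + 1 - 1 = N' := by omega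
  refine ⟨fun h => ?_, fun h => ?_, fun ν hν h hc => ?_, fun e => ?_⟩
  · apply reduce p hp _ (fun i => m * μ i) r _ s' f hf
    refine Pool.Agent.TH501.HHF.powSurplusAny hN hs' _ hP (N' + 1 - 1) _ _ hr fun j => ?_
    obtain ⟨a, ha⟩ : ∃ a, μ (f j) = a + (N' + 1) := ⟨μ (f j) - (N' + 1), by
      have := h _ (hf0 j)
      omega⟩
    show r * (m * μ (f j) + (N' + 1 - 1) * (N' + 1 - 1) + (N' + 1) - 1) ≤
      r * (m + (N' + 1) - 1) * μ (f j)
    rw [mul_assoc, e1, e2, ha]
    apply Nat.mul_le_mul_left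
    have e3 : m * (a + (N' + 1)) + N' * N' + (N' + 1) - 1 =
        m * (a + (N' + 1)) + N' * N' + N' := by omega
    rw [e3]
    nlinarith [Nat.zero_le (a * N')]
  · have key : fatIdeal p (fun i => (m + (N' + 1) - 1) * μ i) ≤
        irrelevant K (N' + 1) ^ (N' + 1 - 1) * fatIdeal p (fun i => m * μ i) ^ 1 := by
      apply reduce p hp _ (fun i => m * μ i) 1 _ s' f hf
      rw [pow_one]
      refine Pool.Agent.TH501.HHF.surplusAny hN hs' _ hP (N' + 1 - 1) _ _ fun j => ?_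
      obtain ⟨a, ha⟩ : ∃ a, μ (f j) = a + N' := ⟨μ (f j) - N', by
        have := h _ (hf0 j)
        omega⟩
      show m * μ (f j) + (N' + 1 - 1) * (N' + 1 - 1) ≤ (m + (N' + 1) - 1) * μ (f j)
      rw [e1, e2, ha]
      nlinarith [Nat.zero_le (a * N')]
    rwa [pow_one] at key
  · apply reduce p hp _ (fun i => m * μ i) r _ s' f hf
    obtain ⟨v, rfl⟩ : ∃ v, ν = v + 2 := ⟨ν - 2, by omega⟩
    have e3 : m * (v + 2) + (N' + 1) - 2 = m * (v + 2) + N' - 1 := by omega
    have hN' : 1 ≤ N' := by omega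
    rw [e2, e3, Nat.add_sub_cancel] at hc
    set Y := m * (v + 2) with hY
    have hY2 : 2 ≤ Y := by nlinarith
    set b := r * N' * (v + 1) / (Y + N') with hb
    have h1 : b * (Y + N') ≤ r * N' * (v + 1) := Nat.div_mul_le_self _ _
    have h2 : r * N' * (v + 1) + 1 ≤ b * (Y + N') + (Y + N') := by
      have := Nat.lt_div_mul_add (a := r * N' * (v + 1)) (b := Y + N') (by omega)
      rw [← hb] at this
      exact this
    have h3 : b * m ≤ r * N' := by
      have h4 : b * m * (v + 2) ≤ r * N' * (v + 2) := by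
        calc b * m * (v + 2) = b * Y := by rw [hY]; ring
          _ ≤ b * (Y + N') := Nat.mul_le_mul_left _ (by omega)
          _ ≤ r * N' * (v + 1) := h1
          _ ≤ r * N' * (v + 2) := Nat.mul_le_mul_left _ (by omega)
      exact Nat.le_of_mul_le_mul_right h4 (by omega)
    have h5 : r * N' ≤ b * Y := by
      have h6 : (r * N') * (Y + N') ≤ (b * Y) * (Y + N') := by
        have h7 : (r * N' * (v + 1) + 1) * Y ≤ (b * (Y + N') + (Y + N')) * Y :=
          Nat.mul_le_mul_right _ h2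
        have h8 : Y * (Y + N' - 1) = Y * (Y + N') - Y := by
          rw [Nat.mul_sub, mul_one]
        have h9 : Y ≤ Y * (Y + N') := Nat.le_mul_of_pos_right _ (by omega)
        rw [h8] at hc
        have h10 : Y * (Y + N') + r * N' * N' ≤ r * N' * (Y * v) + Y := by omega
        nlinarith
      exact Nat.le_of_mul_le_mul_right h6 (by omega)
    refine Pool.Agent.TH501.HHF.splitting hN _ hP _ (fun j => m * μ (f j)) _
      r 1 b _ ⟨0, hs'⟩ hr le_rfl ?_ ?_ ?_
    · intro j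
      rw [one_mul]
    · intro j
      show (r * 1 + b) * (m * μ (f j) + (N' + 1) - 1) ≤ r * (m + (N' + 1) - 1) * μ (f j)
      obtain ⟨a, ha⟩ : ∃ a, μ (f j) = a + (v + 2) := ⟨μ (f j) - (v + 2), by
        have := h _ (hf0 j)
        omega⟩
      have e4 : m * μ (f j) + (N' + 1) - 1 = m * μ (f j) + N' := by omega
      rw [e1, e4, ha, mul_one]
      have h6 : b * (m * (a + (v + 2)) + N') ≤ r * N' * (a + (v + 1)) := by
        calc b * (m * (a + (v + 2)) + N') = b * m * a + b * (Y + N') := by rw [hY]; ring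
          _ ≤ r * N' * a + r * N' * (v + 1) := Nat.add_le_add (Nat.mul_le_mul_right _ h3) h1
          _ = r * N' * (a + (v + 1)) := by ring
      calc (r + b) * (m * (a + (v + 2)) + N') =
            r * (m * (a + (v + 2)) + N') + b * (m * (a + (v + 2)) + N') := by ring
        _ ≤ r * (m * (a + (v + 2)) + N') + r * N' * (a + (v + 1)) := Nat.add_le_add_left h6 _
        _ = r * (m + N') * (a + (v + 2)) := by ring
    · show r * (N' + 1 - 1) ≤ b * (m * μ (f ⟨0, hs'⟩))
      rw [e2]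
      refine h5.trans (Nat.mul_le_mul_left _ ?_)
      exact Nat.mul_le_mul_left _ (h _ (hf0 _))
  · apply reduce p hp _ (fun i => m * μ i) r _ s' f hf
    refine Pool.Agent.TH501.HHF.powSurplusAny hN hs' _ hP e _ _ hr fun j => ?_
    obtain ⟨a, ha⟩ : ∃ a, μ (f j) = a + 1 := ⟨μ (f j) - 1, by
      have := hf0 j
      omega⟩
    show r * (m * μ (f j) + e * (N' + 1 - 1) + (N' + 1) - 1) ≤
      r * (m + (e + 1) * (N' + 1 - 1)) * μ (f j)
    rw [mul_assoc, e2, ha]
    apply Nat.mul_le_mul_left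
    have e3 : m * (a + 1) + e * N' + (N' + 1) - 1 = m * (a + 1) + e * N' + N' := by omega
    rw [e3]
    nlinarith [Nat.zero_le (a * ((e + 1) * N'))]

end Pool.Agent.Results.MP_cc5cd7_ag.EveryFieldHighMultiplicity
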