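import Pool.Agent.TH614.RC.C

set_option autoImplicit false

namespace Pool.Agent.Results.MP_cc5cd7_ag.GeneralPoints

open MvPolynomial

/-- the homogeneous ideal of the point of projective `N`-space with homogeneous coordinates `q` -/
noncomputable def pointIdeal {N : ℕ} (q : Fin (N + 1) → ℂ) :
    Ideal (MvPolynomial (Fin (N + 1)) ℂ) :=
  Ideal.span (Set.range (fun jl : Fin (N + 1) × Fin (N + 1) =>
    (X jl.1 * C (q jl.2) - X jl.2 * C (q jl.1) : MvPolynomial (Fin (N + 1)) ℂ)))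

/-- the ideal of the fat point scheme `∑ μ i • p i` in projective `N`-space -/
noncomputable def fatIdeal {N s : ℕ} (p : Fin s → Fin (N + 1) → ℂ) (μ : Fin s → ℕ) :
    Ideal (MvPolynomial (Fin (N + 1)) ℂ) :=
  ⨅ i : Fin s, pointIdeal (p i) ^ (μ i)

/-- the ideal generated by the variables -/
noncomputable def irrelevant (N : ℕ) : Ideal (MvPolynomial (Fin (N + 1)) ℂ) :=
  Ideal.span (Set.range (fun j : Fin (N + 1) => (X j : MvPolynomial (Fin (N + 1)) ℂ)))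

/-- `I(r (m + N - 1) Z) ⊆ M^(r E) I(m Z)^r` for all `r`, where `Z = ∑ μ i • p i`; the case
`E = N - 1` is the refined containment -/
def Refined {N s : ℕ} (m E : ℕ) (μ : Fin s → ℕ) (p : Fin s → Fin (N + 1) → ℂ) : Prop :=
  ∀ r : ℕ, fatIdeal p (fun i => r * (m + N - 1) * μ i) ≤
    irrelevant N ^ (r * E) * fatIdeal p (fun i => m * μ i) ^ r

/-- `P` holds for general `s` points of projective `N`-space (given by nonzero coordinate
vectors): it holds outside the zero set of a nonzero polynomial in the coordinates. -/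
def General (N s : ℕ) (P : (Fin s → Fin (N + 1) → ℂ) → Prop) : Prop :=
  ∃ D : MvPolynomial (Fin s × Fin (N + 1)) ℂ, D ≠ 0 ∧
    ∀ p : Fin s → Fin (N + 1) → ℂ, eval (fun ij => p ij.1 ij.2) D ≠ 0 →
      (∀ i, p i ≠ 0) ∧ P p

/-- translation to the notation of this file -/
theorem transl {n s m E : ℕ} {μ : Fin s → ℕ}
    (h : Pool.Agent.H938R2.ForGeneral (n + 2) s (fun p => (∀ i, p i ≠ 0) ∧ ∀ r : ℕ,
      (⨅ i, Pool.Agent.H737R3.linI (p i) ^ (r * (m + n) * μ i)) ≤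
      Pool.Agent.H737R3.Cont.irr ℂ (n + 1) ^ (r * E) *
        (⨅ i, Pool.Agent.H737R3.linI (p i) ^ (m * μ i)) ^ r)) :
    General (n + 1) s (Refined m E μ) := by
  obtain ⟨D, hD, h⟩ := h
  refine ⟨D, hD, fun p hp => ⟨(h p hp).1, fun r => ?_⟩⟩
  obtain ⟨h0, h1⟩ := h p hp
  have h2 : ∀ i, pointIdeal (p i) = Pool.Agent.H737R3.linI (p i) :=
    fun i => Pool.Agent.H737R3.span_eq_linI (h0 i)
  unfold fatIdeal
  simp only [h2]
  exact h1 r

/-- **The refined containment for general fat points** in projective `N`-space over `ℂ`, `N ≥ 2`,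
`T ≥ 2`, `m` arbitrary, `Z = ∑ μ i • p i`, `M` the ideal generated by the variables.

1. `s ≤ T ^ N` general points with multiplicities `1 ≤ μ i ≤ B`: the containment
   `I(r (m + N - 1) Z) ⊆ M^(r E) I(m Z)^r` holds for all `r` at once if
   `T^(N-1) (T m B + ⌈(N - 1) (T - 1) / 2⌉ + E) < (∑ μ i) (m + N - 1)`.
2. The same with `t ^ N ≤ s ≤ T ^ N` and `ν ≤ μ i ≤ B` if
   `T m B + ⌈(N - 1) (T - 1) / 2⌉ + E < t ν (m + N - 1)`.
3. `T ^ N` general points, reduced: `E = N - 2 + ⌊(N - 1) (T - 1) / 2⌋`.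
4. Any number `s ≥ T ^ N` of general points with multiplicities `1 ≤ μ i ≤ B`: `E = N - 1` if
   `N + m B + T m (B - 1) ≤ ⌊(N - 1) T / 2⌋` (for reduced points: `N + m ≤ ⌊(N - 1) T / 2⌋`). -/
theorem result (N : ℕ) (hN : 2 ≤ N) (m : ℕ) (T : ℕ) (hT : 2 ≤ T) :
    (∀ (s : ℕ) (μ : Fin s → ℕ) (B E : ℕ), s ≤ T ^ N → (∀ i, 1 ≤ μ i ∧ μ i ≤ B) →
      T ^ (N - 1) * (T * m * B + ((N - 1) * (T - 1) + 1) / 2 + E) < (∑ i, μ i) * (m + N - 1) →
      General N s (Refined m E μ)) ∧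
    (∀ (s t : ℕ) (μ : Fin s → ℕ) (ν B E : ℕ), 1 ≤ t → 1 ≤ ν → t ^ N ≤ s → s ≤ T ^ N →
      (∀ i, ν ≤ μ i ∧ μ i ≤ B) →
      T * m * B + ((N - 1) * (T - 1) + 1) / 2 + E < t * ν * (m + N - 1) →
      General N s (Refined m E μ)) ∧
    General N (T ^ N) (Refined m (N - 2 + (N - 1) * (T - 1) / 2) (fun _ => 1)) ∧
    (∀ (s : ℕ) (μ : Fin s → ℕ) (B : ℕ), T ^ N ≤ s → (∀ i, 1 ≤ μ i ∧ μ i ≤ B) →
      N + m * B + T * (m * (B - 1)) ≤ (N - 1) * T / 2 →
      General N s (Refined m (N - 1) μ)) := by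
  obtain ⟨n, rfl⟩ : ∃ n, N = n + 1 := ⟨N - 1, by omega⟩
  have hn : 1 ≤ n := by omega
  have hA : ∀ (T : ℕ), 2 ≤ T → ∀ (s : ℕ) (μ : Fin s → ℕ) (M E : ℕ), s ≤ T ^ (n + 1) →
      (∀ i, 1 ≤ μ i ∧ μ i ≤ M) →
      T ^ n * (T * m * M + (n * (T - 1) + 1) / 2 + E) < (∑ i, μ i) * (m + n) →
      General (n + 1) s (Refined m E μ) := by
    intro T hT s μ M E hs hμ hE
    obtain ⟨u, rfl⟩ : ∃ u, T = u + 1 := ⟨T - 1, by omega⟩
    have hP : 1 ≤ n * u := Nat.mul_pos hn (by omega)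
    rw [Nat.add_sub_cancel] at hE
    refine transl (Pool.Agent.TH614.RC.generalA n m (u + 1) s
      ((u + 1) * m * M + (n * u + 1) / 2 - 1) E μ M hn hT hs (fun i => (hμ i).1)
      (fun i => (hμ i).2) ?_ ?_)
    · have h1 : 2 * (u + 1) * (m * M) = 2 * ((u + 1) * m * M) := by ring
      have h2 : n * (u + 1) = n * u + n := by ring
      omega
    · have h1 : (u + 1) * m * M + (n * u + 1) / 2 - 1 + 1 = (u + 1) * m * M + (n * u + 1) / 2 := by
        omega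
      rw [h1]
      exact hE
  have hB : ∀ (T : ℕ), 2 ≤ T → ∀ (s t : ℕ) (μ : Fin s → ℕ) (ν M E : ℕ), 1 ≤ t → 1 ≤ ν →
      t ^ (n + 1) ≤ s → s ≤ T ^ (n + 1) → (∀ i, ν ≤ μ i ∧ μ i ≤ M) →
      T * m * M + (n * (T - 1) + 1) / 2 + E < t * ν * (m + n) →
      General (n + 1) s (Refined m E μ) := by
    intro T hT s t μ ν M E ht hν hs1 hs2 hμ hE
    obtain ⟨u, rfl⟩ : ∃ u, T = u + 1 := ⟨T - 1, by omega⟩
    have hP : 1 ≤ n * u := Nat.mul_pos hn (by omega)
    rw [Nat.add_sub_cancel] at hE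
    refine transl (Pool.Agent.TH614.RC.generalB n m (u + 1) s
      ((u + 1) * m * M + (n * u + 1) / 2 - 1) E μ M t ν hn ht hT hν hs1 hs2 (fun i => (hμ i).1)
      (fun i => (hμ i).2) ?_ ?_)
    · have h1 : 2 * (u + 1) * (m * M) = 2 * ((u + 1) * m * M) := by ring
      have h2 : n * (u + 1) = n * u + n := by ring
      omega
    · have h1 : (u + 1) * m * M + (n * u + 1) / 2 - 1 + 1 = (u + 1) * m * M + (n * u + 1) / 2 := by
        omega
      rw [h1]
      exact hE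
  refine ⟨fun s μ M E hs hμ hE => hA T hT s μ M E hs hμ hE,
    fun s t μ ν M E ht hν hs1 hs2 hμ hE => hB T hT s t μ ν M E ht hν hs1 hs2 hμ hE, ?_, ?_⟩
  · refine hB T hT (T ^ (n + 1)) T (fun _ => 1) 1 1 _ (by omega) le_rfl le_rfl le_rfl
      (fun _ => ⟨le_rfl, le_rfl⟩) ?_
    obtain ⟨u, rfl⟩ : ∃ u, T = u + 1 := ⟨T - 1, by omega⟩
    have hP : 1 ≤ n * u := Nat.mul_pos hn (by omega)
    rw [Nat.add_sub_cancel, Nat.add_sub_cancel, mul_one, mul_one]
    have h1 : (u + 1) * (m + n) = (u + 1) * m + n * u + n := by ring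
    omega
  · intro s μ B hs hμ hm2
    rw [Nat.add_sub_cancel] at hm2
    have hs0 : 0 < s := lt_of_lt_of_le (Nat.pow_pos (by omega)) hs
    obtain ⟨b, rfl⟩ : ∃ b, B = b + 1 := ⟨B - 1, by
      have := hμ ⟨0, hs0⟩
      omega⟩
    rw [Nat.add_sub_cancel] at hm2
    have hex : ∃ v, s < v ^ (n + 1) :=
      ⟨s + 1, lt_of_lt_of_le (Nat.lt_succ_self s) (Nat.le_self_pow (by omega) _)⟩
    classical
    set v := Nat.find hex with hv
    have hv1 : s < v ^ (n + 1) := Nat.find_spec hex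
    have hv2 : T < v := by
      have h1 : T ^ (n + 1) < v ^ (n + 1) := lt_of_le_of_lt hs hv1
      exact lt_of_pow_lt_pow_left₀ (n + 1) (Nat.zero_le _) h1
    obtain ⟨u, hu⟩ : ∃ u, v = u + 1 := ⟨v - 1, by omega⟩
    have hv3 : u ^ (n + 1) ≤ s := by
      have h1 := Nat.find_min hex (m := u) (by omega)
      omega
    obtain ⟨c, hc⟩ : ∃ c, u = T + c := ⟨u - T, by omega⟩
    have h3 : 2 * (m * b) ≤ n := by
      have h4 : T * (2 * (m * b)) ≤ T * n := by
        have h5 : T * (2 * (m * b)) = 2 * (T * (m * b)) := by ring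
        have h6 : n * T = T * n := by ring
        omega
      exact Nat.le_of_mul_le_mul_left h4 (by omega)
    have h4 : c * (2 * (m * b)) ≤ c * n := Nat.mul_le_mul_left _ h3
    refine hB (u + 1) (by omega) s u μ 1 (b + 1) _ (by omega) le_rfl hv3
      (by rw [← hu]; exact hv1.le) hμ ?_
    rw [Nat.add_sub_cancel, Nat.add_sub_cancel, mul_one]
    have h1 : u * (m + n) = u * m + n * T + c * n := by rw [hc]; ring
    have h2 : (u + 1) * m * (b + 1) = u * m + m * (b + 1) + T * (m * b) + c * (m * b) := by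
      rw [hc]; ring
    have h5 : n * u = n * T + c * n := by rw [hc]; ring
    have h6 : c * (2 * (m * b)) = 2 * (c * (m * b)) := by ring
    rw [h1, h2, h5]
    omega

end Pool.Agent.Results.MP_cc5cd7_ag.GeneralPoints
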