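import Pool.Agent.TH501.HHF.Euler

set_option autoImplicit false

namespace Pool.Agent.Results.MP_cc5cd7_ag.NoReducedPoints

open MvPolynomial

/-- the homogeneous ideal of the point of projective `N`-space with homogeneous coordinates `q` -/
noncomputable def pointIdeal {K : Type*} [Field K] {N : ℕ} (q : Fin (N + 1) → K) :
    Ideal (MvPolynomial (Fin (N + 1)) K) :=
  Ideal.span (Set.range (fun jl : Fin (N + 1) × Fin (N + 1) =>
    (X jl.1 * C (q jl.2) - X jl.2 * C (q jl.1) : MvPolynomial (Fin (N + 1)) K)))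

/-- the ideal of the fat point scheme `∑ μ i • p i` in projective `N`-space -/
noncomputable def fatIdeal {K : Type*} [Field K] {N s : ℕ} (p : Fin s → Fin (N + 1) → K)
    (μ : Fin s → ℕ) : Ideal (MvPolynomial (Fin (N + 1)) K) :=
  ⨅ i : Fin s, pointIdeal (p i) ^ (μ i)

/-- the ideal generated by the variables -/
noncomputable def irrelevant (K : Type*) [Field K] (N : ℕ) :
    Ideal (MvPolynomial (Fin (N + 1)) K) :=
  Ideal.span (Set.range (fun j : Fin (N + 1) => (X j : MvPolynomial (Fin (N + 1)) K)))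

section

variable {K : Type*} [Field K] [CharZero K] {N s : ℕ}

/-- the containment with a surplus -/
theorem surplus (hN : 2 ≤ N) (p : Fin s → Fin (N + 1) → K) (hp : ∀ i, p i ≠ 0)
    (a w : Fin s → ℕ) (T : Fin s → Prop) (hT : ∃ i, T i) (hw : ∀ i, ¬ T i → w i = 0)
    (r e : ℕ) (hr : 1 ≤ r) (h : ∀ i, T i → r * (w i + N - 1) + e ≤ a i) :
    fatIdeal p a ≤ irrelevant K N ^ (r + e) * fatIdeal p w ^ r := by
  classical
  obtain ⟨i0, hi0⟩ := hT
  set S := {i : Fin s // T i} with hS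
  have hcard : 0 < Fintype.card S := Fintype.card_pos_iff.2 ⟨⟨i0, hi0⟩⟩
  let f : Fin (Fintype.card S) ≃ S := (Fintype.equivFin S).symm
  have h1 : ∀ i, pointIdeal (p i) = Pool.Agent.H737R3.linI (p i) :=
    fun i => Pool.Agent.H737R3.span_eq_linI (hp i)
  have key := Pool.Agent.TH501.HHF.surplus (n := N) hN hcard (by omega : 0 < r)
    (fun j => p (f j)) (fun j => hp _) (fun j => w (f j)) (fun j => a (f j)) e
    (fun j => h _ (f j).2)
  unfold fatIdeal
  simp only [h1]
  intro F hF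
  rw [Submodule.mem_iInf] at hF
  have h2 : F ∈ ⨅ j, Pool.Agent.H737R3.linI (p (f j)) ^ (a (f j)) := by
    rw [Submodule.mem_iInf]
    intro j
    exact hF (f j)
  have h3 := key h2
  refine Ideal.mul_mono_right (Ideal.pow_right_mono ?_ r) h3
  refine le_iInf fun i => ?_
  by_cases hi : T i
  · have h4 : (f (f.symm ⟨i, hi⟩) : Fin s) = i := by simp
    calc (⨅ j, Pool.Agent.H737R3.linI (p (f j)) ^ (w (f j))) ≤
          Pool.Agent.H737R3.linI (p (f (f.symm ⟨i, hi⟩))) ^ (w (f (f.symm ⟨i, hi⟩))) :=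
          iInf_le _ _
      _ = Pool.Agent.H737R3.linI (p i) ^ (w i) := by rw [h4]
  · rw [hw i hi, pow_zero, Ideal.one_eq_top]
    exact le_top

end

/-- **The refined containment for fat point schemes without reduced points, characteristic zero.**
Let `Z = ∑ μ i • p i` be a fat point scheme in projective `N`-space, `N ≥ 2`, over a field of
characteristic zero, `Z ≠ 0`, and `r, m ≥ 1`.

1. If no multiplicity is equal to one, then `I(r (m + N - 1) Z) ⊆ M^(r (N - 1)) I(m Z)^r`.
2. If all nonzero multiplicities are at least `ν ≥ 1`, then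
   `I(r (m + N - 1) Z) ⊆ M^(r ((N - 1) (ν - 1) + 1)) I(m Z)^r`.
3. Without any condition on the multiplicities,
   `I(r (m + 2 N - 3) Z) ⊆ M^(r (N - 1)) I(m Z)^r`. -/
theorem result (K : Type*) [Field K] [CharZero K] (N : ℕ) (hN : 2 ≤ N) (s : ℕ)
    (p : Fin s → Fin (N + 1) → K) (hp : ∀ i, p i ≠ 0) (μ : Fin s → ℕ) (hμ : ∃ i, μ i ≠ 0)
    (r m : ℕ) (hr : 1 ≤ r) (hm : 1 ≤ m) :
    ((∀ i, μ i ≠ 1) →
      fatIdeal p (fun i => r * (m + N - 1) * μ i) ≤
        irrelevant K N ^ (r * (N - 1)) * fatIdeal p (fun i => m * μ i) ^ r) ∧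
    (∀ ν : ℕ, 1 ≤ ν → (∀ i, μ i ≠ 0 → ν ≤ μ i) →
      fatIdeal p (fun i => r * (m + N - 1) * μ i) ≤
        irrelevant K N ^ (r * ((N - 1) * (ν - 1) + 1)) * fatIdeal p (fun i => m * μ i) ^ r) ∧
    fatIdeal p (fun i => r * (m + 2 * N - 3) * μ i) ≤
      irrelevant K N ^ (r * (N - 1)) * fatIdeal p (fun i => m * μ i) ^ r := by
  obtain ⟨N', rfl⟩ : ∃ N', N = N' + 2 := ⟨N - 2, by omega⟩
  have h2 : ∀ ν : ℕ, 1 ≤ ν → (∀ i, μ i ≠ 0 → ν ≤ μ i) →
      fatIdeal p (fun i => r * (m + (N' + 2) - 1) * μ i) ≤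
        irrelevant K (N' + 2) ^ (r * ((N' + 2 - 1) * (ν - 1) + 1)) *
          fatIdeal p (fun i => m * μ i) ^ r := by
    intro ν hν h
    have key := surplus hN p hp (fun i => r * (m + (N' + 2) - 1) * μ i) (fun i => m * μ i)
      (fun i => μ i ≠ 0) hμ (fun i hi => by
        have : μ i = 0 := not_not.1 hi
        simp [this]) r (r * ((N' + 1) * (ν - 1))) hr ?_
    · refine le_trans key (Ideal.mul_mono_left (Ideal.pow_le_pow_right ?_))
      have : N' + 2 - 1 = N' + 1 := by omega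
      rw [this]
      nlinarith
    · intro i hi
      have h3 := h i hi
      obtain ⟨a, ha⟩ : ∃ a, μ i = ν + a := ⟨μ i - ν, by omega⟩
      obtain ⟨b, rfl⟩ : ∃ b, ν = b + 1 := ⟨ν - 1, by omega⟩
      have e1 : m + (N' + 2) - 1 = m + (N' + 1) := by omega
      have e2 : m * μ i + (N' + 2) - 1 = m * μ i + (N' + 1) := by omega
      rw [e1, e2, ha, Nat.add_sub_cancel, mul_assoc, ← mul_add]
      apply Nat.mul_le_mul_left
      nlinarith [Nat.zero_le (a * (N' + 1))]
  refine ⟨fun h => ?_, h2, ?_⟩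
  · refine le_trans (h2 2 (by omega) fun i hi => ?_)
      (Ideal.mul_mono_left (Ideal.pow_le_pow_right ?_))
    · have := h i
      omega
    · apply Nat.mul_le_mul_left
      omega
  · have key := surplus hN p hp (fun i => r * (m + 2 * (N' + 2) - 3) * μ i) (fun i => m * μ i)
      (fun i => μ i ≠ 0) hμ (fun i hi => by
        have : μ i = 0 := not_not.1 hi
        simp [this]) r (r * N') hr ?_
    · refine le_trans key (Ideal.mul_mono_left (Ideal.pow_le_pow_right ?_))
      have : N' + 2 - 1 = N' + 1 := by omega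
      rw [this]
      nlinarith
    · intro i hi
      obtain ⟨a, ha⟩ : ∃ a, μ i = a + 1 := ⟨μ i - 1, by omega⟩
      have e1 : m + 2 * (N' + 2) - 3 = m + (2 * N' + 1) := by omega
      have e2 : m * μ i + (N' + 2) - 1 = m * μ i + (N' + 1) := by omega
      rw [e1, e2, ha, mul_assoc, ← mul_add]
      apply Nat.mul_le_mul_left
      nlinarith [Nat.zero_le (a * (2 * N' + 1))]

end Pool.Agent.Results.MP_cc5cd7_ag.NoReducedPoints
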